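import Pool.Agent.R869.SPtd
import Pool.Agent.R869.UAff

/-!
MP_c69980_ag, Q1: the conditions 2, 3, 4, 5 for all irreducible components of the affine open parts,
by coordinate hyperplanes, of the projective varieties given by linear combinations of the powers
`x_j ^ d` and of `s` further monomials of degree `d`, in given sets of variables, for almost all
choices of these monomials; for the hypersurfaces among them (with arbitrary coefficients), a
necessary and sufficient combinatorial criterion for all the conditions, with `Δ = ∅`, for all closed
subvarieties, and for the existence of entire curves, and of closed subvarieties which are not of log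
general type, with given vanishing coordinates; affine varieties of all dimensions which satisfy the
conditions with `Δ = ∅`; forms with few monomials whose exponents are far apart in the sense of
lattice widths.

`Loose F J` (`Pool/Agent/R869/USharpDefs.lean`): `F` does not have exactly one monomial in the
variables from `J`, and there is a colouring of the variables with `V ≥ 2` colours on `J` such that
`N + D + 4 ≤ 2 V`, where `N` is the number of the monomials of `F` in the variables from `J` whose
variables have different colours, and `D` is the number of the colours on `J` for which exactly one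
monomial of `F` in the variables from `J` has all its variables of this colour.
`WideT U T N` (`Pool/Agent/R869/WHgt.lean`): whenever at most `n` pairs of elements of the sets
`T e`, in the variables of a set `I`, are such that the sum of the segments between them has positive
width in all directions, this sum has width at least `N` in all directions that are minimal on `U`.
`TuplesIn I d`, `AlmostAllIn I P`, `Spread I m J` (`SDefs.lean`): the tuples of exponent vectors of
degree `d`, the `i`-th one of a monomial in the variables from `I i`; the proportion of the tuples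
with the property `P` tends to `1` for `d → ∞`; for all colourings of the variables which are not
constant on `J`, `∑ min (m + 1) (a v + b v) ≤ m (N + 2) + 1`, the sum over the colours `v` on `J`,
where `a v` and `b v` are the numbers of the variables from `J` and of the sets `I i ⊆ J` with the
colour `v`, and `N` is the number of the sets `I i ⊆ J` with different colours. `withPowers`
(`WDensDefs.lean`): the set of the exponent vectors `a i` and of those of the `x_j ^ d`.
`GenCoeffs F T` (`WGen.lean`): the coefficient vectors of the `m` forms `F e` at any `m` elements of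
`T` are linearly independent (all coefficients are nonzero, if `m = 1`). `BrodyV`, `PicardV`,
`StronglyLgt` (`WCptC.lean`): the variety with generic point `y` is pseudo-Brody hyperbolic (the
condition 2), pseudo-Picard hyperbolic, strongly of log general type. From the starting repository:
`CoordRing U y` (`Pool/Agent/Y190/PH/Ring.lean`): the coordinate ring of the affine variety
`V = {x_j ≠ 0, j in U}` with generic point `y`; `FinitePointedMaps A J`, `BoundedModulo A J`
(`Pool/Agent/Y193/Defs.lean`): the conditions 3 and 5 for `Spec A` and the closed subset `V(J)`;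
`SubVarU`, `OffU`, `IsForm`, `LogGeneralType`, `IsComponentU`, `Acts` (`Pool/Agent/W602/GT`): the
function fields and generic points of the closed subvarieties of `X = {F = 0, x_j ≠ 0 for j in U}`,
the places over the boundary, the components, diagonal actions; `EntireCurve U F f`
(`Pool/Agent/H159R3/GGL/Log.lean`): `f` is the vector of homogeneous coordinates of an entire curve
in `X`.
-/

set_option autoImplicit false

namespace Pool.Agent.Results.MP_c69980_ag.AlmostAllMonomials

open MvPolynomial Pool.Agent.W602.GT Pool.Agent.H159R3.GGLLog Pool.Agent.R869.Wd
open Pool.Agent.Y190.PH (CoordRing)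
open Pool.Agent.Y193 (FinitePointedMaps BoundedModulo)

/-- The equivalence of the conditions for all irreducible components of positive dimension of the
open part `x_j ≠ 0` (`j` in `U`) of the projective variety `F = 0`: `V` is of log general type; `V`
is pseudo-Brody hyperbolic; off a proper closed subset of `V` there are only finitely many morphisms
from each variety to `V` with a given value at a given point; `V` is bounded modulo a proper closed
subset; `V` is pseudo-Picard hyperbolic; `V` is strongly of log general type; all diagonal
one-parameter groups which act on `V` act trivially. -/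
def Equivalent {n : ℕ} {ι : Type} (U : Set (Fin (n + 1))) (F : ι → MvPolynomial (Fin (n + 1)) ℂ) :
    Prop :=
  ∀ (K : Type) [Field K] [Algebra ℂ K] (w : ℕ) (y : Fin (n + 1) → K), 1 ≤ w →
    SubVarU U F K w y → IsComponentU U F y →
    [LogGeneralType ℂ K w (OffU U y), BrodyV U y,
      ∃ J : Ideal (CoordRing U y), J ≠ ⊥ ∧ FinitePointedMaps (CoordRing U y) J,
      ∃ J : Ideal (CoordRing U y), J ≠ ⊥ ∧ BoundedModulo (CoordRing U y) J,
      PicardV U y, StronglyLgt U ℂ y,
      ∀ b : Fin (n + 1) → ℤ, Acts U ℂ y b → ∀ i i', y i ≠ 0 → y i' ≠ 0 → b i = b i'].TFAE

/-- There are no entire curves in the open part `X` of the projective variety `F = 0`, and all closed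
subvarieties `V` of `X` of positive dimension are of log general type, there are only finitely many
morphisms from each variety to `V` with a given value at a given point, and `V` is bounded. -/
def AllConditions {n : ℕ} {ι : Type} (U : Set (Fin (n + 1)))
    (F : ι → MvPolynomial (Fin (n + 1)) ℂ) : Prop :=
  (∀ f, ¬ EntireCurve U F f) ∧
  ∀ (K : Type) [Field K] [Algebra ℂ K] (w : ℕ) (y : Fin (n + 1) → K), 1 ≤ w →
    SubVarU U F K w y → LogGeneralType ℂ K w (OffU U y) ∧
      FinitePointedMaps (CoordRing U y) ⊤ ∧ BoundedModulo (CoordRing U y) ⊤

/-- For the hypersurface `X = {F = 0, x_j ≠ 0 for j in U}`, all the conditions hold, with `Δ = ∅`, for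
all closed subvarieties if and only if no set of variables which contains `U` is loose for `F`; for all
sets `J` of variables which contain `U`, the following are equivalent: `J` is loose for `F`; there is
an entire curve in `X` on which exactly the coordinates outside `J` vanish identically; there is a
closed subvariety of `X` of positive dimension with this property which is not of log general type. -/
def LooseCriterion {n : ℕ} (U : Set (Fin (n + 1))) (F : MvPolynomial (Fin (n + 1)) ℂ) : Prop :=
  (AllConditions U (fun _ : Fin 1 => F) ↔ ∀ J : Finset (Fin (n + 1)), (∀ j ∈ U, j ∈ J) →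
    ¬ Loose F J) ∧
  ∀ J : Finset (Fin (n + 1)), (∀ j ∈ U, j ∈ J) →
    [Loose F J,
      ∃ f, EntireCurve U (fun _ : Fin 1 => F) f ∧ ∀ j, (∃ z, f z j ≠ 0) ↔ j ∈ J,
      ∃ (K : Type) (_ : Field K) (_ : Algebra ℂ K) (w : ℕ) (y : Fin (n + 1) → K), 1 ≤ w ∧
        SubVarU U (fun _ : Fin 1 => F) K w y ∧ (∀ j, y j ≠ 0 ↔ j ∈ J) ∧
        ¬ LogGeneralType ℂ K w (OffU U y)].TFAE

theorem equivalent_of {n s N A : ℕ} {ι : Type} [Finite ι] {U : Set (Fin (n + 1))}
    (hU : U.Nonempty) {F : ι → MvPolynomial (Fin (n + 1)) ℂ} (hC : Sys U F s N)
    (hA : HgtBound U F A) : Equivalent U F := by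
  intro K _ _ w y hw hy hcomp
  have h := ptd_tfae hU hC hA hw hy hcomp
  tfae_have 1 ↔ 2 := h.out 0 1
  tfae_have 1 ↔ 3 := h.out 0 3
  tfae_have 1 ↔ 4 := h.out 0 4
  tfae_have 1 ↔ 5 := h.out 0 2
  tfae_have 1 ↔ 6 := h.out 0 6
  tfae_have 1 ↔ 7 := h.out 0 7
  tfae_finish

/-- (1) For all `n`, `s`, all nonempty sets of variables `I 1, …, I s` and almost all tuples of
monomials of degree `d` in `n + 1` variables, the `i`-th one in the variables from `I i`, for all
nonempty `U`: the conditions are equivalent for the projective varieties given by `m` linear
combinations `F e` of these monomials and of the `x_j ^ d` (`Equivalent U F`); `LooseCriterion U F` for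
all such linear combinations `F` (with arbitrary coefficients); if any `m` of the coefficient vectors
of the `m` linear combinations are linearly independent, and the `I i` are well spread, with respect
to `m`, on all sets of variables which contain `U`, then all the conditions are satisfied
(`AllConditions U F`).

(2) The `I i` are well spread, with respect to `m`, on all sets of variables if all sets of `2 m + 2`
variables are among the `I i`, `m ≥ 1`, and all `I i` have at least `m + 1` elements. -/
theorem result :
    (∀ (n s : ℕ) (I : Fin s → Finset (Fin (n + 1))), (∀ i, (I i).Nonempty) →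
      AlmostAllIn I fun d a => ∀ U : Set (Fin (n + 1)), U.Nonempty →
        (∀ (m : ℕ) (F : Fin m → MvPolynomial (Fin (n + 1)) ℂ),
          (∀ e, (F e).support ⊆ withPowers d a) → Equivalent U F ∧
          (GenCoeffs F (withPowers d a) →
            (∀ J : Finset (Fin (n + 1)), (∀ j ∈ U, j ∈ J) → Spread I m J) → AllConditions U F)) ∧
        ∀ F : MvPolynomial (Fin (n + 1)) ℂ, F.support ⊆ withPowers d a → LooseCriterion U F) ∧
    ∀ (n m s : ℕ) (I : Fin s → Finset (Fin (n + 1))), 1 ≤ m → (∀ i, m + 1 ≤ (I i).card) →
      (∀ A : Finset (Fin (n + 1)), A.card = 2 * m + 2 → ∃ i, I i = A) → ∀ J, Spread I m J := by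
  classical
  refine ⟨?_, fun n m s I hm hI hall => spread_all hm hI hall⟩
  intro n s I hI
  refine almost_typI hI fun d a hty U hU => ⟨fun m F hFT => ?_, fun F hF => ⟨⟨?_, ?_⟩, ?_⟩⟩
  · obtain ⟨A, hA⟩ := hty.bound
    obtain ⟨s', N, hg⟩ := hty.good
    exact ⟨equivalent_of hU (hg.sys hFT U) (hA ℂ m F U hFT).1, fun hgc hsp => ⟨fun f hf =>
      hty.no_entire hFT hgc
        (J := Finset.univ.filter fun j => ∃ z, f z j ≠ 0) (fun j => by simp)
        (hsp _ fun j hj => Finset.mem_filter.2 ⟨Finset.mem_univ _, 0, (hf.2.1 0).2.1 j hj⟩) hf,
        fun K _ _ w y hw hy => hty.affine hFT hgc hU hsp hw hy⟩⟩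
  · intro h
    exact (hty.loose_all hF U).2 fun K _ _ w y hw hy => (h.2 K w y hw hy).1
  · intro h
    refine ⟨fun f hf => ?_, fun K _ _ w y hw hy => hty.affine1 hF hU h hw hy⟩
    obtain ⟨h1, h2⟩ := (hty.critJ hF U (Finset.univ.filter fun j => ∃ z, f z j ≠ 0)).1
      ⟨f, hf, fun j => by simp⟩
    exact h _ h1 h2
  · intro J hJ
    have h1 := hty.critAll hF hJ
    tfae_have 1 ↔ 2 := h1.out 0 1
    tfae_have 1 ↔ 3 := h1.out 0 3
    tfae_finish

/-- **Wide systems.** Let `T e` be finitely many sets of at most `s` exponent vectors which are
`N`-wide relative to the nonempty set `U` with `N > n s (s - 1) (s - 2) / 2`, and let `F e` be forms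
with exponents in `T e`. Then the conditions are equivalent (`Equivalent`). -/
theorem wide_systems : ∀ (n s N : ℕ) (ι : Type) [Finite ι] (U : Set (Fin (n + 1)))
      (T : ι → Finset (Fin (n + 1) →₀ ℕ)), U.Nonempty → 1 ≤ s →
      (∀ e, (T e).card ≤ s) → WideT U T N → n * (s * ((s - 1) * (s - 2) / 2)) < N →
      ∀ (F : ι → MvPolynomial (Fin (n + 1)) ℂ), (∀ e, (F e).support ⊆ T e) →
        (∀ e, IsForm (F e)) → Equivalent U F := by
  intro n s N ι _ U T hU hs hT hW hN F hFT hF
  have hN' : s * (n * Pool.Agent.R869.tri (s - 1)) < N := by
    rw [tri_choose]
    refine lt_of_le_of_lt (le_of_eq ?_) hN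
    ring
  obtain ⟨A, hA⟩ := unif U T hs hT hW (cstC_lt hs hN')
  exact equivalent_of hU ⟨hF, hs, fun e => (Finset.card_le_card (hFT e)).trans (hT e),
    wide_of_wideT hW hFT, hN'⟩ (hA ℂ F hFT hF)

end Pool.Agent.Results.MP_c69980_ag.AlmostAllMonomials
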