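import Pool.Agent.R871.SG.AlgC

/-!
MP_c69980_ag, Q1: the condition (5), boundedness of algebraic maps, and holomorphic maps of slow growth.
-/

set_option autoImplicit false

namespace Pool.Agent.Results.MP_c69980_ag.BoundedSlowMaps

open Pool.Agent.R871.SG MvPolynomial

/-- Let `Y` be an irreducible affine variety in `ℂᵖ` (for instance an affine curve), given by the prime
ideal `I`, and let `U = {F = 0}` be an affine variety in `ℂˢ`, all over the complex numbers. There is a
function `φ` with `φ r / log r → ∞` for `r → ∞` such that for all closed subsets `Δ = {G = 0}` and all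
numbers `D` the following are equivalent.

(1) All algebraic maps `Y → U` which do not map `Y` to `Δ` are on `Y` given by polynomials of degree at
most `D`.

(2) All holomorphic maps `Y → U` which do not map `Y` to `Δ` and which are restrictions of entire maps
`f : ℂᵖ → ℂˢ` such that `log ‖f z‖ ≤ φ r` for all `z` with `‖z‖ ≤ r`, for arbitrarily large `r`, are on
`Y` given by polynomials of degree at most `D`. -/
theorem result {p s : ℕ} {ι : Type} (I : Ideal (MvPolynomial (Fin p) ℂ)) [I.IsPrime]
    (F : ι → MvPolynomial (Fin s) ℂ) : ∃ φ : ℝ → ℝ, Grows φ ∧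
      ∀ (κ : Type) (G : κ → MvPolynomial (Fin s) ℂ) (D : ℕ),
        (∀ P : Fin s → MvPolynomial (Fin p) ℂ, HolOn I F (mv P) → Outside I G (mv P) →
          DegLE I D (mv P)) ↔
        ∀ f, HolOn I F f → SlowM φ f → Outside I G f → DegLE I D f :=
  bounded_iff I F

end Pool.Agent.Results.MP_c69980_ag.BoundedSlowMaps
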