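import Mathlib
import Pool.Agent.R849.FC.Dich
import Pool.Agent.R849.FC.Conv

set_option autoImplicit false

/-!
# Degrees of curves whose coordinates are sums of few units

MP_c69980_ag, Q1. Algebraic hyperbolicity modulo a closed set of arbitrary quasi-projective
varieties `X ⊂ P^N` of degree at most `d` (closed subvariety minus a hypersurface section), for all
curves whose coordinates are sums of `r` units with small coefficients: it is equivalent to the
absence of nonconstant morphisms from the multiplicative group outside the closed set. The constant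
depends only on `d` and `r`.
-/

namespace Pool.Agent.Results.MP_c69980_ag.DegreesOfUnitSums

open FF MvPolynomial
open Pool.Agent.TH143 Pool.Agent.W603.LV Pool.Agent.W603.PV Pool.Agent.R849.FC

/-- `K` is the function field of a smooth projective curve, `S` a finite set of its places, and `x`
is a vector of rational functions on the curve with `F (x) = 0` such that `Q (x)` has no zeros and
poles outside `S`: if the coordinates of `x` have no poles outside `S`, a morphism from the affine
curve without the points of `S` to the variety `F = 0`, `Q ≠ 0` in affine space. The coordinates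
are the sums `∑ u_j ρ_(j,a)` with functions `u_j` without zeros and poles outside `S`. -/
structure SumCurve {N : ℕ} {ι : Type} (F : ι → MvPolynomial (Fin (N + 1)) ℂ)
    (Q : MvPolynomial (Fin (N + 1)) ℂ) {K : Type} [Field K] [Algebra ℂ K] {r : ℕ}
    (S : Finset (Place ℂ K)) (u : Fin r → K) (ρ : Fin r → Fin (N + 1) → K)
    (x : Fin (N + 1) → K) : Prop where
  ne : ∀ j, u j ≠ 0
  unit : ∀ j, ∀ P ∉ S, P.ord (u j) = 0
  coord : ∀ a, x a = ∑ j, u j * ρ j a
  nonzero : x ≠ 0
  mem : ∀ i, aeval x (F i) = 0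
  off : aeval x Q ≠ 0
  unitQ : ∀ P ∉ S, P.ord (aeval x Q) = 0

/-- `y` is the value of `x` at the place `P`. -/
def ValueAt {N : ℕ} {K : Type} [Field K] [Algebra ℂ K] (P : Place ℂ K) (x : Fin (N + 1) → K)
    (y : Fin (N + 1) → ℂ) : Prop :=
  ∀ a, x a = algebraMap ℂ K (y a) ∨ 0 < P.ord (x a - algebraMap ℂ K (y a))

theorem hv_of_value {N : ℕ} {K : Type} [Field K] [Algebra ℂ K] {P : Place ℂ K}
    {x : Fin (N + 1) → K} {y : Fin (N + 1) → ℂ} (h : ValueAt P x y) (a : Fin (N + 1)) :
    HV P (x a) (y a) := by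
  rcases h a with h | h
  · exact Or.inl (sub_eq_zero.2 h)
  · exact Or.inr (by omega)

theorem value_of_hv {N : ℕ} {K : Type} [Field K] [Algebra ℂ K] {P : Place ℂ K}
    {x : Fin (N + 1) → K} {y : Fin (N + 1) → ℂ} (h : ∀ a, HV P (x a) (y a)) : ValueAt P x y := by
  intro a
  rcases h a with h | h
  · exact Or.inl (sub_eq_zero.1 h)
  · exact Or.inr (by omega)

theorem zero_of_through {N : ℕ} {P : Fin (N + 1) → Polynomial ℂ} {x : Fin (N + 1) → ℂ}
    (h : Through P x) {G : MvPolynomial (Fin (N + 1)) ℂ} {d : ℕ} (hG : G.IsHomogeneous d)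
    (h0 : ∀ t, t ≠ 0 → eval (fun j => (P j).eval t) G = 0) : eval x G = 0 := by
  obtain ⟨t, c, ht, hc, h⟩ := h
  have h1 := h0 t ht
  rw [show (fun j => (P j).eval t) = fun j => c * x j from funext h,
    Pool.Agent.H159R3.Exp.eval_smul_homog hG] at h1
  exact (mul_eq_zero.mp h1).resolve_left (pow_ne_zero _ hc)

/-- There are constants `A r` depending only on `d` and `r` such that for all `N`, all forms `F i`
and `Q` of degree at most `d` in `N + 1` variables, with `X` the variety `F = 0`, `Q ≠ 0` in `P^N`: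

(1) for every curve in `X` whose coordinates are sums `∑ u_j ρ_(j,a)` of `r` units, either its
degree is at most `A r (max (2 g - 2 + #S, 0) + ∑ deg ρ_(j,a))`, or through all but finitely many of
its points passes a nonconstant morphism from the multiplicative group to `X`;

(2) for every closed set `Z` the following are equivalent:
- all nonconstant morphisms from the multiplicative group to `X` have their image in `Z`;
- the bound of (1) holds for all such curves not contained in `Z`, for all `r`;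
- for all `r` and all constant vectors `V_j`, the degrees of the curves with the coordinates
`∑ z^(m_j) V_j` (`z` the coordinate of the multiplicative group) in `X`, not contained in `Z`, are
bounded. -/
theorem result (d : ℕ) : ∃ A : ℕ → ℕ, ∀ {N : ℕ} {ι : Type} (F : ι → MvPolynomial (Fin (N + 1)) ℂ)
    (_ : ∀ i, ∃ e ≤ d, (F i).IsHomogeneous e) (Q : MvPolynomial (Fin (N + 1)) ℂ)
    (_ : ∃ e ≤ d, Q.IsHomogeneous e),
    (∀ (r : ℕ) (K : Type) [Field K] [Algebra ℂ K] [IsFF ℂ K] (S : Finset (Place ℂ K))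
      (u : Fin r → K) (ρ : Fin r → Fin (N + 1) → K) (x : Fin (N + 1) → K),
      SumCurve F Q S u ρ x →
      pht ℂ x ≤ A r * (max (canDeg ℂ K + S.card) 0 + ∑ j, ∑ a, hgt ℂ (ρ j a)) ∨
      ∃ T : Finset (Place ℂ K), ∀ P ∉ T, ∃ y : Fin (N + 1) → ℂ, ValueAt P x y ∧
        ∃ C, IsGmCurve F Q C ∧ Through C y) ∧
    ∀ Z : Set (MvPolynomial (Fin (N + 1)) ℂ), (∀ G ∈ Z, ∃ e, G.IsHomogeneous e) →
      [∀ C, IsGmCurve F Q C → ∀ t, t ≠ 0 → ∀ G ∈ Z, eval (fun j => (C j).eval t) G = 0,
        ∀ (r : ℕ) (K : Type) [Field K] [Algebra ℂ K] [IsFF ℂ K] (S : Finset (Place ℂ K))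
          (u : Fin r → K) (ρ : Fin r → Fin (N + 1) → K) (x : Fin (N + 1) → K),
          SumCurve F Q S u ρ x → (∃ G ∈ Z, aeval x G ≠ 0) →
          pht ℂ x ≤ A r * (max (canDeg ℂ K + S.card) 0 + ∑ j, ∑ a, hgt ℂ (ρ j a)),
        ∀ (r : ℕ) (V : Fin r → Fin (N + 1) → ℂ), ∃ B : ℤ, ∀ (m : Fin r → ℤ)
          (x : Fin (N + 1) → RatFunc ℂ),
          SumCurve F Q ZP (fun j => (RatFunc.X : RatFunc ℂ) ^ m j)
            (fun j a => algebraMap ℂ (RatFunc ℂ) (V j a)) x → (∃ G ∈ Z, aeval x G ≠ 0) →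
          pht ℂ x ≤ B].TFAE := by
  classical
  choose A hA using fun r => dich d r
  refine ⟨A, ?_⟩
  intro N ι F hF Q hQ
  have hone : ∀ (r : ℕ) (K : Type) [Field K] [Algebra ℂ K] [IsFF ℂ K] (S : Finset (Place ℂ K))
      (u : Fin r → K) (ρ : Fin r → Fin (N + 1) → K) (x : Fin (N + 1) → K),
      SumCurve F Q S u ρ x →
      pht ℂ x ≤ A r * (max (canDeg ℂ K + S.card) 0 + ∑ j, ∑ a, hgt ℂ (ρ j a)) ∨
      ∃ T : Finset (Place ℂ K), ∀ P ∉ T, ∃ y : Fin (N + 1) → ℂ, ValueAt P x y ∧
        ∃ C, IsGmCurve F Q C ∧ Through C y := by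
    intro r K _ _ _ S u ρ x hx
    rcases hA r F hF Q hQ K S u ρ x hx.ne hx.unit hx.coord hx.nonzero hx.mem hx.off hx.unitQ with
      h | ⟨T, h⟩
    · exact Or.inl h
    · right
      obtain ⟨T1, hT1⟩ := exists_supp (k := ℂ) Finset.univ x
      refine ⟨T ∪ T1, fun P hP => ?_⟩
      rw [Finset.mem_union, not_or] at hP
      have hPx : ∀ a, P.ord (x a) = 0 := fun a => by
        by_contra h; exact hP.2 (hT1 a (Finset.mem_univ _) P h)
      choose y hy using fun a => exists_hv (P := P) (Or.inr (hPx a).ge : Ge P 0 (x a))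
      exact ⟨y, value_of_hv hy, h P hP.1 y hy⟩
  refine ⟨hone, fun Z hZ => ?_⟩
  tfae_have 1 → 2 := by
    intro h r K _ _ _ S u ρ x hx ⟨G, hG, hxG⟩
    rcases hone r K S u ρ x hx with h1 | ⟨T, h1⟩
    · exact h1
    · exfalso
      obtain ⟨T1, hT1⟩ := exists_supp (k := ℂ) (Finset.univ : Finset (Fin 1)) ![aeval x G]
      obtain ⟨P, hP⟩ := exists_place (T ∪ T1)
      rw [Finset.mem_union, not_or] at hP
      have hPG : P.ord (aeval x G) = 0 := by
        by_contra h; exact hP.2 (hT1 0 (Finset.mem_univ _) P h)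
      obtain ⟨y, hy, C, hC1, hC2⟩ := h1 P hP.1
      obtain ⟨e, he⟩ := hZ G hG
      have h2 := HV.aeval (hv_of_value hy) G
      exact h2.ne_zero hxG hPG (zero_of_through hC2 he fun t ht => h C hC1 t ht G hG)
  tfae_have 2 → 3 := by
    intro h r V
    exact ⟨_, fun m x hx hG => h r (RatFunc ℂ) ZP _ _ x hx hG⟩
  tfae_have 3 → 1 := by
    intro h C hC t ht G hG
    by_contra hne
    obtain ⟨r, V, hV⟩ := unbounded F Q C hC G hne
    obtain ⟨B, hB⟩ := h r V
    obtain ⟨m, x, h1, h2, h3, h4, h5, h6, h7⟩ := hV B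
    refine absurd (hB m x ⟨fun j => zpow_ne_zero _ RatFunc.X_ne_zero, fun j P hP => ?_, h1, h2, h3,
      h4, h5⟩ ⟨G, hG, h6⟩) (not_le.2 h7)
    rw [P.ord_zpow]
    rw [mem_ZP, not_not] at hP
    rw [hP, mul_zero]
  tfae_finish

end Pool.Agent.Results.MP_c69980_ag.DegreesOfUnitSums
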