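import Mathlib
import Pool.Agent.R393.UC.Fin

set_option autoImplicit false

/-!
# Affine varieties of log-general type: one closed subset for all entire curves of bounded complexity

Let `U` be an affine variety in affine `n`-space over a field `k`, with the prime ideal `I`.

**Complexity.**  An entire curve with coordinates `x(z)` has complexity `(s, r, e)`
(`CurveVec s r e x`) if there are entire functions `X_1, …, X_s` with values in the invertible
`r × r` matrices over `ℂ` such that

* `X_l' = M_l X_l`, where the entries of `M_l` are values of polynomials with complex coefficients,
  of degree at most `e` in each variable, at the entries of `X_i`, `X_i⁻¹`, `i < l`, and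
* the coordinates of `x(z)` are values of such polynomials at the entries of all `X_i`, `X_i⁻¹`,
  `i ≤ s`.

So `X_1 = exp (z M_1) C`, the coefficients of the equation for `X_2` are exponential polynomials,
`X_2` can contain iterated exponentials, Airy and Mathieu functions, and so on.

**Theorem.** (1) Let `σ` be an embedding of `k` in `ℂ`. The following are equivalent:

* `U` is not covered by curves with the source `G_m` (`¬ GmUniruled I`: over no extension `L` of `k`
  there is a nonconstant morphism from `G_m` to `U` not contained in any proper closed subset defined
  over `k`);
* (`OneDelta`) for each complexity `(s, r, e)` there is ONE proper closed subset `Δ ⊊ U`, defined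
  over `k`, which contains all nonconstant entire curves of complexity `(s, r, e)` in `U^τ`, for
  all embeddings `τ` of `k` in `ℂ`;
* (`OneDeltaExp`) the same for the curves of complexity `(1, 1, e)` and for `τ = σ`.

(2) Let `k = ℂ`. If `U` is of log-general type (`LogGeneralType`, in terms of the function field
`K`, with the coordinate functions `z`, and of the places at which some `z_j` is not regular), then
these conditions hold: for each `(s, r, e)` there is one proper closed `Δ ⊊ U` such that every
entire curve in `U` of complexity `(s, r, e)` factors over `Δ`.

So for affine `U` condition 4 of the problem implies condition 2 for the entire curves of any given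
complexity. For projective varieties (and countable `k`) see `MP_8d161d_ag.StrongIteratedCurves`;
the affine case concerns curves on the complement of a divisor and is not a special case. For a
single curve, with a Zariski dense image, such results are in the starting development
`Pool.Agent.Y377.IL`.

The proof takes counterexamples for all `G`, moves them to centres where nothing degenerates, and
applies a homomorphism from sequences of complex numbers to complex numbers to their Taylor series.
The limit is a solution of iterated linear differential equations in the field of formal Laurent
series which is a generic point of `U` over a countable field of definition and is not constant, and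
the theorem on iterated Picard-Vessiot towers of `Pool.Agent.Y377` gives a curve with the source
`G_m` through a generic point.
-/

namespace Pool.Agent.Results.MP_c69980_ag.OneDeltaForCurves

open MvPolynomial Pool.Agent.R393.UB Pool.Agent.R393.UC
open Pool.Agent.W602.GT (LogGeneralType)

/-- **One closed subset for all entire curves of bounded complexity.** -/
theorem result :
    (∀ (k : Type) [Field k] (σ : k →+* ℂ) (n : ℕ) (I : Ideal (MvPolynomial (Fin n) k)),
      I.IsPrime → List.TFAE [¬ GmUniruled I, OneDelta I, OneDeltaExp σ I]) ∧
    (∀ (n : ℕ) (K : Type) [Field K] [Algebra ℂ K] (w : ℕ) (z : Fin n → K),
      IntermediateField.adjoin ℂ (Set.range z) = ⊤ → Algebra.trdeg ℂ K = w →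
      LogGeneralType ℂ K w (AtInfinity z) → OneDelta (idealOf z)) :=
  ⟨fun _ _ σ _ _ hI => tfaeC σ hI, fun _ _ _ _ _ z hgen hdim hlog s r e =>
    genC (idealOf_prime z) (not_gmUniruled hgen hdim hlog) s r e⟩

end Pool.Agent.Results.MP_c69980_ag.OneDeltaForCurves
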